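import Pool.Agent.helper94.VD.SpecDPR
import Pool.Agent.helper98.VD.SSE

set_option autoImplicit false

open scoped ContDiff Topology InnerProductSpace ENNReal
open MeasureTheory Filter Set

namespace Pool.Agent.VD

noncomputable section

theorem DTR_der {A B : Type} [NormedAddCommGroup A] [NormedSpace ℝ A] [NormedAddCommGroup B] [NormedSpace ℝ B] (Λ : B →L[ℝ] A) (N : ℝ × B → B)
    (κ : A → B) (τ : A → ℝ) (F : A → A) (l : ℝ) (y y' X : B) (hN : DifferentiableAt ℝ N (l, y)) (hκ : DifferentiableAt ℝ κ 0) (hτ : DifferentiableAt ℝ τ 0)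
    (hκ0 : κ 0 = y) (hτ0 : τ 0 = l) (hF : ∀ᶠ a in 𝓝 (0 : A), F a = Λ (N (τ a, κ a) - y')) (hX : fderiv ℝ N (l, y) (1, 0) = X) (hΛ : Λ X = 0) (v : A) :
    fderiv ℝ F 0 v = Λ (fderiv ℝ N (l, y) (0, fderiv ℝ κ 0 v)) := by
  have h1 : HasFDerivAt (fun a : A => (τ a, κ a)) ((fderiv ℝ τ 0).prod (fderiv ℝ κ 0)) 0 := hτ.hasFDerivAt.prodMk hκ.hasFDerivAt
  have h2 : HasFDerivAt N (fderiv ℝ N (l, y)) (τ 0, κ 0) := by
    rw [hτ0, hκ0]
    exact hN.hasFDerivAt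
  have h3 : HasFDerivAt (fun a : A => N (τ a, κ a)) ((fderiv ℝ N (l, y)).comp ((fderiv ℝ τ 0).prod (fderiv ℝ κ 0))) 0 :=
    HasFDerivAt.comp (0 : A) (f := fun a : A => (τ a, κ a)) (g := N) h2 h1
  have h4 : HasFDerivAt (fun a : A => Λ (N (τ a, κ a) - y')) (Λ.comp ((fderiv ℝ N (l, y)).comp ((fderiv ℝ τ 0).prod (fderiv ℝ κ 0)))) 0 :=
    Λ.hasFDerivAt.comp (0 : A) (h3.sub_const y')
  have h5 : fderiv ℝ F 0 = fderiv ℝ (fun a : A => Λ (N (τ a, κ a) - y')) 0 := Filter.EventuallyEq.fderiv_eq hF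
  rw [h5, h4.fderiv]
  have h6 : ((fderiv ℝ τ 0).prod (fderiv ℝ κ 0)) v = (fderiv ℝ τ 0 v) • ((1 : ℝ), (0 : B)) + (0, fderiv ℝ κ 0 v) := by
    rw [ContinuousLinearMap.prod_apply, Prod.smul_mk, Prod.mk_add_mk, smul_zero, zero_add, add_zero, smul_eq_mul, mul_one]
  rw [ContinuousLinearMap.comp_apply, ContinuousLinearMap.comp_apply, h6, map_add, map_smul, hX, map_add, map_smul, hΛ, smul_zero, zero_add]

theorem DTR_proof (hSFI : SFI_stmt) (hSPR : SPR_stmt) (hSPQ : SPQ_stmt) (hSDT : SDT_stmt) : DTR_stmt := by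
  intro m C C' r hC hC' hr
  obtain ⟨M, ρ, hM, hρ, hρr, hPR⟩ := hSPR m C C' r hC hC' hr
  obtain ⟨c, ρ', hc, hρ', hρρ, hPQ⟩ := hSPQ m C C' r M ρ hC hC' hr hM hρ
  obtain ⟨M5, hM5, hFI⟩ := hSFI m C hC
  refine ⟨c, 2 * M, ρ', hc, by linarith, hρ', hρρ.trans hρr, ?_⟩
  intro Γ _ _ K G Φ D hG y hy y' hy' e e' κ κ' he he' hκ hκ' γ l hl1 hl2 hy1
  have hj : ‖MM Φ γ (l, y) - y'‖ = 0 := by rw [hy1, sub_self, norm_zero]
  obtain ⟨F, τ, hF⟩ := hPR Γ K G Φ D hG y hy y' hy' e e' κ κ' he he' hκ hκ' γ l hl1 hl2 (by rw [hj]; exact hρ.le)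
  rw [hj] at hF
  have hq := hPQ Γ K G Φ D hG y hy y' hy' e e' κ κ' he he' hκ hκ' γ l 0 hl1 hl2 hj.symm hρ'.le F τ hF
  obtain ⟨fl, -, -, fX, -⟩ := hFI Γ K G Φ D hG y' hy' e' he'
  have hτ0 : τ 0 = l := by
    have h1 := (hF.eq 0 (by rw [norm_zero]; exact hρ.le)).2.1
    rw [norm_zero, add_zero, zero_pow two_ne_zero, mul_zero] at h1
    exact sub_eq_zero.mp (abs_nonpos_iff.mp h1)
  refine ⟨F, τ, SSE_hyp hSDT hM le_rfl hF.cF hρρ le_rfl hq, ?_, ?_, ?_⟩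
  · have h1 := hF.F0
    rw [mul_zero] at h1
    exact norm_le_zero_iff.mp h1
  · intro a ha
    obtain ⟨h1, h2, -, -⟩ := hF.eq a (ha.trans hρρ)
    refine ⟨h1, h2.trans ?_⟩
    rw [add_zero]
    have h3 : 0 ≤ ‖a‖ ^ 2 := by positivity
    nlinarith
  · intro v
    have hev : ∀ᶠ a in 𝓝 (0 : Z m), F a = LinearMap.toContinuousLinearMap (IsLinearMap.mk' (LL G y' e') fl) (MM Φ γ (τ a, κ a) - y') := by
      filter_upwards [Metric.ball_mem_nhds (0 : Z m) hρ] with a ha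
      rw [mem_ball_zero_iff] at ha
      obtain ⟨h1, -, -, h4⟩ := hF.eq a ha.le
      have h5 := (hκ'.on (F a) h4).2.2
      rw [h1] at h5
      exact h5.symm
    have h7 : fderiv ℝ (MM Φ γ) (l, y) (1, 0) = XH G y' := by
      rw [hG.mx, hy1]
    exact DTR_der (LinearMap.toContinuousLinearMap (IsLinearMap.mk' (LL G y' e') fl)) (MM Φ γ) κ τ F l y y' (XH G y')
      ((hG.dif γ).differentiable (by simp) (l, y)) (hκ.c11.dif 0 (by rw [sub_zero, norm_zero]; exact hr.le)) (hF.ct.dif 0 (by rw [sub_zero, norm_zero]; exact hρ.le))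
      hκ.zero hτ0 hev h7 fX v

end

end Pool.Agent.VD
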