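import Pool.Agent.helper55.VD.SpecE3

set_option autoImplicit false

open scoped ContDiff Topology InnerProductSpace ComplexConjugate ENNReal
open MeasureTheory Filter Set

namespace Pool.Agent.VD

open Pool.Agent.VQ (CH KZ PS perZ cmZ)
open Pool.Agent.RPQ (IsOp)

noncomputable section

theorem EEF_int {d : ℕ} (μ : Measure (V d)) [IsFiniteMeasureOnCompacts μ] (φ ψ : V d → ℂ) (g : V d → ℝ) (c : ℝ) (hφ : Continuous φ) (hψ : Continuous ψ)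
    (hg : Continuous g) (S : Set (V d)) (hS : IsCompact S) (hs : ∀ z, ψ z ≠ 0 → z ∈ S) :
    (∫ z, ((g z : ℝ) : ℂ) * φ z * conj (ψ z) ∂μ) - ((c : ℝ) : ℂ) * ∫ z, φ z * conj (ψ z) ∂μ = ∫ z, φ z * conj (((g z - c : ℝ) : ℂ) * ψ z) ∂μ := by
  have c1 : Continuous fun z => φ z * conj (ψ z) := hφ.mul (Complex.continuous_conj.comp hψ)
  have c2 : Continuous fun z => ((g z : ℝ) : ℂ) * φ z * conj (ψ z) := ((Complex.continuous_ofReal.comp hg).mul hφ).mul (Complex.continuous_conj.comp hψ)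
  have z0 : ∀ z, z ∉ S → ψ z = 0 := by
    intro z hz
    by_contra h
    exact hz (hs z h)
  have i1 : Integrable (fun z => φ z * conj (ψ z)) μ := c1.integrable_of_hasCompactSupport (HasCompactSupport.intro hS fun z hz => by rw [z0 z hz, map_zero, mul_zero])
  have i2 : Integrable (fun z => ((g z : ℝ) : ℂ) * φ z * conj (ψ z)) μ := c2.integrable_of_hasCompactSupport (HasCompactSupport.intro hS fun z hz => by rw [z0 z hz, map_zero, mul_zero])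
  rw [← integral_const_mul, ← integral_sub i2 (i1.const_mul _)]
  refine integral_congr_ae (Eventually.of_forall fun z => ?_)
  show ((g z : ℝ) : ℂ) * φ z * conj (ψ z) - ((c : ℝ) : ℂ) * (φ z * conj (ψ z)) = φ z * conj (((g z - c : ℝ) : ℂ) * ψ z)
  rw [map_mul, Complex.conj_ofReal, Complex.ofReal_sub]
  ring

theorem EEF_R (R : ℝ) (hR : 16 ≤ R) : 2 * R ^ (-(1 / 4) : ℝ) ≤ 1 := by
  have h1 : R ^ (-(1 / 4) : ℝ) ≤ (16 : ℝ) ^ (-(1 / 4) : ℝ) := Real.rpow_le_rpow_of_nonpos (by norm_num) hR (by norm_num)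
  have h2 : (16 : ℝ) ^ (-(1 / 4) : ℝ) = 1 / 2 := by
    have h3 : (16 : ℝ) = (2 : ℝ) ^ (4 : ℝ) := by
      have : (2 : ℝ) ^ (4 : ℝ) = (2 : ℝ) ^ (4 : ℕ) := by
        rw [← Real.rpow_natCast]
        norm_num
      rw [this]
      norm_num
    rw [h3, ← Real.rpow_mul (by norm_num)]
    have h4 : (4 : ℝ) * -(1 / 4) = -1 := by norm_num
    rw [h4, Real.rpow_neg_one]
    norm_num
  rw [h2] at h1
  linarith

theorem EEF_pow (R D C1 C5 L η : ℝ) (hR1 : 1 ≤ R) (hC5 : 1 ≤ C5) (hR : C5 ^ 40 ≤ R) (hη : 40 * (2 + C1) * η ≤ 1) :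
    (C5 * L * R ^ (-(1 / 2) + η) * R ^ (3 * D / 4 + η) * R ^ (-(3 * D / 4) + C1 * η)) ^ 2 ≤ L ^ 2 * R ^ (-(9 / 10) : ℝ) := by
  have hR0 : 0 < R := by linarith
  have e1 : C5 * L * R ^ (-(1 / 2) + η) * R ^ (3 * D / 4 + η) * R ^ (-(3 * D / 4) + C1 * η) = C5 * L * R ^ (-(1 / 2) + (2 + C1) * η) := by
    have e2 : R ^ (-(1 / 2) + (2 + C1) * η) = R ^ (-(1 / 2) + η) * R ^ (3 * D / 4 + η) * R ^ (-(3 * D / 4) + C1 * η) := by
      rw [← Real.rpow_add hR0, ← Real.rpow_add hR0]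
      congr 1
      ring
    rw [e2]
    ring
  rw [e1, mul_pow, mul_pow]
  have e3 : (R ^ (-(1 / 2) + (2 + C1) * η)) ^ 2 = R ^ (-1 + 2 * (2 + C1) * η) := by
    rw [← Real.rpow_natCast, ← Real.rpow_mul hR0.le]
    congr 1
    push_cast
    ring
  rw [e3]
  have h1 : C5 ^ 2 ≤ R ^ (1 / 20 : ℝ) := by
    have h2 : (C5 ^ 40) ^ (1 / 20 : ℝ) ≤ R ^ (1 / 20 : ℝ) := Real.rpow_le_rpow (by positivity) hR (by norm_num)
    have h3 : (C5 ^ 40) ^ (1 / 20 : ℝ) = C5 ^ 2 := by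
      rw [← Real.rpow_natCast, ← Real.rpow_natCast, ← Real.rpow_mul (by linarith)]
      congr 1
      norm_num
    rw [h3] at h2
    exact h2
  have h4 : C5 ^ 2 * R ^ (-1 + 2 * (2 + C1) * η) ≤ R ^ (-(9 / 10) : ℝ) := by
    calc C5 ^ 2 * R ^ (-1 + 2 * (2 + C1) * η) ≤ R ^ (1 / 20 : ℝ) * R ^ (-1 + 2 * (2 + C1) * η) := mul_le_mul_of_nonneg_right h1 (Real.rpow_nonneg hR0.le _)
      _ = R ^ (1 / 20 + (-1 + 2 * (2 + C1) * η)) := (Real.rpow_add hR0 _ _).symm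
      _ ≤ R ^ (-(9 / 10) : ℝ) := Real.rpow_le_rpow_of_exponent_le hR1 (by nlinarith)
  calc C5 ^ 2 * L ^ 2 * R ^ (-1 + 2 * (2 + C1) * η) = L ^ 2 * (C5 ^ 2 * R ^ (-1 + 2 * (2 + C1) * η)) := by ring
    _ ≤ L ^ 2 * R ^ (-(9 / 10) : ℝ) := mul_le_mul_of_nonneg_left h4 (by positivity)

/-- the frozen family -/
def EEF_f {Γ : Type} {d : ℕ} (Φ : ℝ → P d → P d) (g : V d → ℝ) (t : ℝ) (f : YS Γ d → V d → ℂ) (y : YS Γ d) (w : V d) : ℂ :=
  ((g w - g (Φ t y.2).1 : ℝ) : ℂ) * f y w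

theorem EEF_fam {Γ : Type} {d : ℕ} [Group Γ] [MulAction Γ (V d)] (G : V d → V d →L[ℝ] V d) (Φ : ℝ → P d → P d) (r0 : ℝ) (Kd : ℕ) (η m m' R t : ℝ) (g : V d → ℝ)
    (f : YS Γ d → V d → ℂ) (hf : Fa G Φ r0 Kd η m R t f) (hg : Continuous g) (hΦ : Continuous (Φ t))
    (hp : ∀ y ∈ GW Γ G r0 2 R, Pk Kd η m' R (Φ t y.2) (fun w => ((g w - g (Φ t y.2).1 : ℝ) : ℂ) * f y w)) :
    Fa G Φ r0 Kd η m' R t (EEF_f Φ g t f) := by
  refine ⟨fun γ => ?_, fun γ y => ?_, fun y hy => hp y hy⟩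
  · have h1 : Continuous fun x : P d × V d => ((g x.2 - g (Φ t x.1).1 : ℝ) : ℂ) :=
      Complex.continuous_ofReal.comp ((hg.comp continuous_snd).sub (hg.comp (continuous_fst.comp (hΦ.comp continuous_fst))))
    exact h1.mul (hf.cont γ)
  · funext w
    show ((g w - g (Φ t (γ • y).2).1 : ℝ) : ℂ) * f (γ • y) w = ((g w - g (Φ t y.2).1 : ℝ) : ℂ) * f y w
    rw [hf.inv γ y]
    rfl

theorem EEF_aF {Γ : Type} {d : ℕ} [Group Γ] [MulAction Γ (V d)] (G : V d → V d →L[ℝ] V d) (Φ : ℝ → P d → P d) (r0 : ℝ) (Kd : ℕ) (η m R t C : ℝ) (g : V d → ℝ)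
    (f : YS Γ d → V d → ℂ) (hf : Fa G Φ r0 Kd η m R t f) (hg : Continuous g) (hgi : Inv Γ g) (hsm : ∀ γ : Γ, Continuous fun x : V d => γ • x)
    (hfin : ∀ S : Set (V d), IsCompact S → mv G S < ⊤) (hsup : ∀ y ∈ GW Γ G r0 2 R, ∀ z, pF f y z ≠ 0 → ‖y.1⁻¹ • z‖ ≤ C) (φ : V d → ℂ) (hφ : Continuous φ) (y : YS Γ d) :
    aF G r0 R f (fun z => ((g z : ℝ) : ℂ) * φ z) y - ((g (Φ t y.2).1 : ℝ) : ℂ) * aF G r0 R f φ y = aF G r0 R (EEF_f Φ g t f) φ y := by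
  unfold aF
  by_cases hy : y ∈ GW Γ G r0 2 R
  · rw [Set.indicator_of_mem hy, Set.indicator_of_mem hy, Set.indicator_of_mem hy]
    have hfm : IsFiniteMeasureOnCompacts (mv G) := ⟨fun S hS => hfin S hS⟩
    have hc : Continuous (pF f y) := by
      have h1 : Continuous fun z : V d => (((y.2, y.1⁻¹ • z) : P d × V d)) := Continuous.prodMk continuous_const (hsm y.1⁻¹)
      exact (hf.cont y.1).comp h1
    have hS : IsCompact ((fun x : V d => y.1 • x) '' Metric.closedBall (0 : V d) C) := (isCompact_closedBall _ _).image (hsm y.1)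
    have h2 := EEF_int (mv G) φ (pF f y) g (g (Φ t y.2).1) hφ hc hg _ hS (fun z hz => ⟨y.1⁻¹ • z, mem_closedBall_zero_iff.mpr (hsup y hy z hz), smul_inv_smul y.1 z⟩)
    rw [h2]
    refine integral_congr_ae (Eventually.of_forall fun z => ?_)
    show φ z * conj (((g z - g (Φ t y.2).1 : ℝ) : ℂ) * pF f y z) = φ z * conj (((g (y.1⁻¹ • z) - g (Φ t y.2).1 : ℝ) : ℂ) * f y (y.1⁻¹ • z))
    rw [hgi y.1⁻¹ z]
    rfl
  · rw [Set.indicator_of_notMem hy, Set.indicator_of_notMem hy, Set.indicator_of_notMem hy, mul_zero, sub_zero]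

theorem EEF_proof (hEPK : EPK_stmt) (hAFMD : AFMD_stmt) (hAFBD : AFBD_stmt) (hAFRD : AFRD_stmt) (hACNF : ACNF_stmt) (hAMVI : AMVI_stmt) : EEF_stmt := by
  intro d Γ _ _ K k B r0 χ hK hχ
  obtain ⟨C1, hC1, h1⟩ := hAFBD d Γ K k B r0 hK
  obtain ⟨C2, hC2, h2⟩ := hAFMD d Γ K k B r0 χ hK hχ
  obtain ⟨C3, hC3, h3⟩ := hAFRD d Γ K k B r0 hK
  obtain ⟨C4, hC4, h4⟩ := hACNF d Γ K k B r0 1 hK
  have hC : 1 ≤ 40 * (2 + C1) * C2 := by nlinarith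
  refine ⟨40 * (2 + C1) * C2, hC, ?_⟩
  intro ch A hch hA
  obtain ⟨a1, a2, a3, a4, a5, a6, a7, a8⟩ := EAM1 hA hC
  have hz2 : A.z2 ≤ 1 := by nlinarith
  have hη : 0 < C2 * A.z1 := by positivity
  have hη1 : 40 * (2 + C1) * (C2 * A.z1) ≤ 1 := by
    have h := a6.trans hz2
    linarith
  have hη2 : C1 * (C2 * A.z1) ≤ 1 := by nlinarith
  have hη3 : C2 * A.z1 ≤ 1 / 4 := by nlinarith
  obtain ⟨Kd, R1, hR1, h1'⟩ := h1 (C2 * A.z1) hη hη2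
  obtain ⟨R2, hR2, h2'⟩ := h2 ch Kd A.z A.z1 0 hch a1 a2 (by linarith)
  obtain ⟨C5, hC5, h5⟩ := hEPK d Kd
  obtain ⟨N, hN⟩ := exists_nat_ge (max (C4 + 1) ((Kd : ℝ) + 1))
  have hN1 : C4 + 1 ≤ N := (le_max_left _ _).trans hN
  have hN2 : Kd + 1 ≤ N := by exact_mod_cast (le_max_right _ _).trans hN
  refine ⟨N, max (max R1 R2) (max C3 (max 16 (C5 ^ 40))), hR1.trans ((le_max_left _ _).trans (le_max_left _ _)), ?_⟩
  intro R t L F G Φ φ g hR hF hOK hφ hg hgs hL hgd ht0 ht1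
  have hRa : R1 ≤ R := ((le_max_left _ _).trans (le_max_left _ _)).trans hR
  have hRb : R2 ≤ R := ((le_max_right _ _).trans (le_max_left _ _)).trans hR
  have hRc : C3 ≤ R := ((le_max_left _ _).trans (le_max_right _ _)).trans hR
  have hRd : 16 ≤ R := ((le_max_left _ _).trans ((le_max_right _ _).trans (le_max_right _ _))).trans hR
  have hRe : C5 ^ 40 ≤ R := ((le_max_right _ _).trans ((le_max_right _ _).trans (le_max_right _ _))).trans hR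
  have hR1' : 1 ≤ R := by linarith
  have hR0 : 0 < R := by linarith
  have htt : |t| ≤ 1 := abs_le.mpr ⟨by linarith, ht1⟩
  obtain ⟨hfp, -⟩ := h2' R t G Φ hRb hOK htt
  have hm0 : 0 ≤ R ^ (3 * (d : ℝ) / 4 + C2 * A.z1) := Real.rpow_nonneg hR0.le _
  obtain ⟨-, -, -, -, hfinm, -, -, -, -⟩ := hAMVI d Γ K k B G hK hOK.cls
  have hΦt : Continuous (Φ t) := hOK.flow.smooth.continuous.comp (Continuous.prodMk continuous_const continuous_id)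
  have hsup : ∀ y ∈ GW Γ G r0 2 R, ∀ z, pF (fP (Γ := Γ) G Φ χ ch A.z A.z1 R t) y z ≠ 0 → ‖y.1⁻¹ • z‖ ≤ C3 := fun y hy z hz =>
    (((h3 Kd (C2 * A.z1) _ R t G Φ _ hRc hOK hη hη3 hm0 htt hfp).1 y hy z).2 hz).1
  have hpk : ∀ y ∈ GW Γ G r0 2 R, Pk Kd (C2 * A.z1) (C5 * L * R ^ (-(1 / 2) + C2 * A.z1) * R ^ (3 * (d : ℝ) / 4 + C2 * A.z1)) R (Φ t y.2)
      (fun w => ((g w - g (Φ t y.2).1 : ℝ) : ℂ) * fP (Γ := Γ) G Φ χ ch A.z A.z1 R t y w) := by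
    intro y hy
    have hHam : Ham G y.2 ≤ 2 := by
      have h6 := (abs_le.mp hy.2).2
      have h7 := EEF_R R hRd
      have h8 : Ep G y.2 = Ham G y.2 - 1 / 2 := rfl
      rw [h8] at h6
      linarith
    have hq := (h4 G Φ hOK y.2 t hy.1 hHam htt).1
    refine (h5 (C2 * A.z1) _ R L (Φ t y.2) (fP (Γ := Γ) G Φ χ ch A.z A.z1 R t y) g hη hη3 hR1' hm0 hL (hfp.pk y hy) hgs ?_).1
    intro n hn x hx
    refine hgd n (hn.trans hN2) x ?_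
    have h9 := norm_sub_norm_le x (Φ t y.2).1
    linarith
  have hfam := EEF_fam G Φ r0 Kd (C2 * A.z1) _ _ R t g (fP (Γ := Γ) G Φ χ ch A.z A.z1 R t) hfp hgs.continuous hΦt hpk
  have hm' : 0 ≤ C5 * L * R ^ (-(1 / 2) + C2 * A.z1) * R ^ (3 * (d : ℝ) / 4 + C2 * A.z1) := by positivity
  have hnp := (h1' R _ t G Φ _ hRa hOK hm' htt hfam ⊤ F {1} (Or.inl ⟨rfl, hF, rfl⟩)).2 φ hφ
  have hfun : (fun y : YS Γ d => aF G r0 R (fP G Φ χ ch A.z A.z1 R t) (fun z => ((g z : ℝ) : ℂ) * φ z) y - ((g (Φ t y.2).1 : ℝ) : ℂ) * aF G r0 R (fP G Φ χ ch A.z A.z1 R t) φ y) =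
      aF G r0 R (EEF_f Φ g t (fP (Γ := Γ) G Φ χ ch A.z A.z1 R t)) φ := by
    funext y
    exact EEF_aF G Φ r0 Kd (C2 * A.z1) _ R t C3 g (fP (Γ := Γ) G Φ χ ch A.z A.z1 R t) hfp hgs.continuous hg (fun γ => (hK.smooth γ).continuous) hfinm hsup φ hφ.cont y
  rw [hfun]
  have hnn : 0 ≤ nn G F φ := integral_nonneg fun z => by positivity
  refine hnp.trans (mul_le_mul_of_nonneg_right ?_ hnn)
  exact EEF_pow R d C1 C5 L (C2 * A.z1) hR1' hC5 hRe hη1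

end

end Pool.Agent.VD
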