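import Pool.Agent.helper93.VD.SpecB1

set_option autoImplicit false

open scoped InnerProductSpace ContDiff Topology
open MeasureTheory Set Filter

namespace Pool.Agent.VD

noncomputable section

theorem LDI_succ {m : ℕ} (A : ℕ → Z m →L[ℝ] Z m) (k : ℕ) :
    pl A (k + 1) = (pl (fun j => A (j + 1)) k).comp (A 0) := by
  induction k with
  | zero => rfl
  | succ k ih =>
    have h1 : pl A (k + 1 + 1) = (A (k + 1)).comp (pl A (k + 1)) := rfl
    have h2 : pl (fun j => A (j + 1)) (k + 1) = (A (k + 1)).comp (pl (fun j => A (j + 1)) k) := rfl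
    rw [h1, ih, h2]
    rfl

/-- the hybrid products -/
def LDI_H {m : ℕ} (L L' : ℕ → Z m →L[ℝ] Z m) (n i : ℕ) : Z m →L[ℝ] Z m :=
  (pl (fun j => L' (i + j)) (n - i)).comp (pl L i)

theorem LDI_H_zero {m : ℕ} (L L' : ℕ → Z m →L[ℝ] Z m) (n : ℕ) : LDI_H L L' n 0 = pl L' n := by
  unfold LDI_H
  have h1 : (fun j => L' (0 + j)) = L' := by
    funext j
    rw [Nat.zero_add]
  rw [h1, Nat.sub_zero]
  rfl

theorem LDI_H_self {m : ℕ} (L L' : ℕ → Z m →L[ℝ] Z m) (n : ℕ) : LDI_H L L' n n = pl L n := by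
  unfold LDI_H
  rw [Nat.sub_self]
  rfl

theorem LDI_H_succ {m : ℕ} (L L' : ℕ → Z m →L[ℝ] Z m) (n i : ℕ) :
    LDI_H L L' n (i + 1) = (pl (fun j => L' (i + 1 + j)) (n - (i + 1))).comp ((L i).comp (pl L i)) := rfl

theorem LDI_H_lt {m : ℕ} (L L' : ℕ → Z m →L[ℝ] Z m) (n i : ℕ) (hi : i < n) :
    LDI_H L L' n i = (pl (fun j => L' (i + 1 + j)) (n - (i + 1))).comp ((L' i).comp (pl L i)) := by
  unfold LDI_H
  have h1 : n - i = (n - (i + 1)) + 1 := by omega
  rw [h1, LDI_succ]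
  have h2 : (fun j => L' (i + (j + 1))) = (fun j => L' (i + 1 + j)) := by
    funext j
    have h3 : i + (j + 1) = i + 1 + j := by omega
    rw [h3]
  rw [h2]
  rfl

theorem LDI_proof (hLMX : LMX_stmt) (hLDE : LDE_stmt) : LDI_stmt := by
  intro m c C hc hC
  obtain ⟨K1, hK1, h1⟩ := hLMX m c C hc hC
  obtain ⟨K2, hK2, h2⟩ := hLDE m K1 hK1
  refine ⟨K2 * K1, by nlinarith, ?_⟩
  intro L L' hL hL' n hn
  have hstep : ∀ i ∈ Finset.range n, abs (Real.log (dB (LDI_H L L' n (i + 1))) - Real.log (dB (LDI_H L L' n i))) ≤ K2 * K1 * ‖L i - L' i‖ := by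
    intro i hi
    have hin : i < n := Finset.mem_range.mp hi
    obtain ⟨X, q, hq, hX1, hX2, -⟩ := h1 (fun j => L' (i + 1 + j)) L (fun j => hL' _) hL (n - (i + 1)) i
    obtain ⟨ha, hb⟩ := hX2 (L i) (hL i)
    obtain ⟨ha', hb'⟩ := hX2 (L' i) (hL' i)
    obtain ⟨hp, -, -, hlog⟩ := h2 (X (L i)) (X (L' i)) ha ha'
    obtain ⟨hp', -, -, -⟩ := h2 (X (L' i)) (X (L i)) ha' ha
    rw [LDI_H_succ, LDI_H_lt L L' n i hin, hb, hb', Real.log_mul hq.ne' hp.ne', Real.log_mul hq.ne' hp'.ne']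
    have e : Real.log q + Real.log (abs (X (L i)).det) - (Real.log q + Real.log (abs (X (L' i)).det)) = Real.log (abs (X (L i)).det) - Real.log (abs (X (L' i)).det) := by ring
    rw [e]
    calc abs (Real.log (abs (X (L i)).det) - Real.log (abs (X (L' i)).det)) ≤ K2 * ‖X (L i) - X (L' i)‖ := hlog
      _ ≤ K2 * (K1 * ‖L i - L' i‖) := mul_le_mul_of_nonneg_left (hX1 _ _) (by linarith)
      _ = K2 * K1 * ‖L i - L' i‖ := by ring
  have htel : ∑ i ∈ Finset.range n, (Real.log (dB (LDI_H L L' n (i + 1))) - Real.log (dB (LDI_H L L' n i))) = Real.log (dB (pl L n)) - Real.log (dB (pl L' n)) := by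
    rw [Finset.sum_range_sub (fun i => Real.log (dB (LDI_H L L' n i))) n, LDI_H_self, LDI_H_zero]
  rw [← htel]
  calc abs (∑ i ∈ Finset.range n, (Real.log (dB (LDI_H L L' n (i + 1))) - Real.log (dB (LDI_H L L' n i))))
      ≤ ∑ i ∈ Finset.range n, abs (Real.log (dB (LDI_H L L' n (i + 1))) - Real.log (dB (LDI_H L L' n i))) := Finset.abs_sum_le_sum_abs _ _
    _ ≤ ∑ i ∈ Finset.range n, K2 * K1 * ‖L i - L' i‖ := Finset.sum_le_sum hstep
    _ = K2 * K1 * ∑ i ∈ Finset.range n, ‖L i - L' i‖ := by rw [Finset.mul_sum]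

end

end Pool.Agent.VD
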