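import Pool.Agent.helper84.VD.SpecB2

set_option autoImplicit false

open scoped ContDiff Topology InnerProductSpace ENNReal
open MeasureTheory Filter Set

namespace Pool.Agent.VD

noncomputable section

theorem SFI_adj {m : ℕ} (e : W m →L[ℝ] V (m + 1)) (x y : V (m + 1)) :
    ⟪ContinuousLinearMap.adjoint e x, ContinuousLinearMap.adjoint e y⟫_ℝ = ⟪e (ContinuousLinearMap.adjoint e x), y⟫_ℝ :=
  ContinuousLinearMap.adjoint_inner_right e _ _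

theorem SFI_lin {m : ℕ} (G : V (m + 1) → V (m + 1) →L[ℝ] V (m + 1)) (z : P (m + 1)) (e : W m →L[ℝ] V (m + 1)) (hW : IsLinearMap ℝ (Wc G z)) :
    IsLinearMap ℝ (LL G z e) := by
  constructor
  · intro v w
    have e1 : LL G z e (v + w) = (ContinuousLinearMap.adjoint e (G z.1 (v.1 + w.1)), ContinuousLinearMap.adjoint e (Wc G z (v + w))) := rfl
    rw [e1, map_add, map_add, hW.map_add, map_add]
    rfl
  · intro c v
    have e1 : LL G z e (c • v) = (ContinuousLinearMap.adjoint e (G z.1 (c • v.1)), ContinuousLinearMap.adjoint e (Wc G z (c • v))) := rfl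
    rw [e1, map_smul, map_smul, hW.map_smul, map_smul]
    rfl

theorem SFI_proof (hSFD : SFD_stmt) : SFI_stmt := by
  intro m C hC
  have hC0 : 0 ≤ C := by linarith
  have hC2 : 1 ≤ C ^ 2 := one_le_pow₀ hC
  have hC3 : 1 ≤ C ^ 3 := one_le_pow₀ hC
  have hC12 : C ≤ C ^ 2 := by nlinarith
  have hC23 : C ^ 2 ≤ C ^ 3 := by nlinarith
  refine ⟨2 * C ^ 3, by linarith, ?_⟩
  intro Γ _ _ K G Φ D hG z hz e he
  obtain ⟨f1, f2, f3, f4, f5, f6, f7⟩ := hSFD m G z e hG.met hz.2 he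
  obtain ⟨b1, b2, b3, b4, b5⟩ := hG.b0 z hz
  have hvel : ‖vel G z‖ ≤ C ^ 2 := by
    calc ‖vel G z‖ ≤ ‖IG G z.1‖ * ‖z.2‖ := ContinuousLinearMap.le_opNorm _ _
      _ ≤ C * C := mul_le_mul b3 b1 (norm_nonneg _) hC0
      _ = C ^ 2 := by ring
  have hea : ∀ a : W m, ‖e a‖ ≤ C * ‖a‖ := by
    intro a
    have h1 := b4 (e a)
    rw [he.on a a, real_inner_self_eq_norm_sq] at h1
    have h2 : ‖e a‖ ^ 2 ≤ (C * ‖a‖) ^ 2 := by
      rw [mul_pow]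
      exact h1.trans (mul_le_mul_of_nonneg_right hC12 (by positivity))
    exact (pow_le_pow_iff_left₀ (norm_nonneg _) (by positivity) two_ne_zero).mp h2
  have hen : ‖e‖ ≤ C := ContinuousLinearMap.opNorm_le_bound _ hC0 hea
  have headj : ∀ x : V (m + 1), ‖ContinuousLinearMap.adjoint e x‖ ≤ C * ‖x‖ := by
    intro x
    calc ‖ContinuousLinearMap.adjoint e x‖ ≤ ‖ContinuousLinearMap.adjoint e‖ * ‖x‖ := ContinuousLinearMap.le_opNorm _ _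
      _ = ‖e‖ * ‖x‖ := by rw [LinearIsometryEquiv.norm_map]
      _ ≤ C * ‖x‖ := mul_le_mul_of_nonneg_right hen (norm_nonneg _)
  have hGn : ∀ u : V (m + 1), ‖G z.1 u‖ ≤ C * ‖u‖ := fun u =>
    (ContinuousLinearMap.le_opNorm _ _).trans (mul_le_mul_of_nonneg_right b2 (norm_nonneg _))
  have hQQ : ∀ v : P (m + 1), QQ (LL G z e v) = Qc G z v - ⟪z.2, v.1⟫_ℝ * fderiv ℝ (Ham G) z v := by
    intro v
    have e1 : QQ (LL G z e v) = ⟪ContinuousLinearMap.adjoint e (G z.1 v.1), ContinuousLinearMap.adjoint e (Wc G z v)⟫_ℝ := rfl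
    have e2 : Qc G z v = ⟪Wc G z v, v.1⟫_ℝ := rfl
    have e3 : e (ContinuousLinearMap.adjoint e (G z.1 v.1)) = v.1 - ⟪z.2, v.1⟫_ℝ • vel G z := eq_sub_of_add_eq (f1 v.1).symm
    rw [e1, e2, SFI_adj, e3, inner_sub_left, real_inner_smul_left, hG.dh, real_inner_comm (Wc G z v) v.1, real_inner_comm (vel G z) (Wc G z v)]
  have hom : ∀ v w : P (m + 1), ⟪z.2, v.1⟫_ℝ = 0 → ⟪z.2, w.1⟫_ℝ = 0 → omg (d := m) (LL G z e v) (LL G z e w) = omg v w := by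
    intro v w hv hw
    have e1 : omg (d := m) (LL G z e v) (LL G z e w) = ⟪ContinuousLinearMap.adjoint e (Wc G z v), ContinuousLinearMap.adjoint e (G z.1 w.1)⟫_ℝ -
        ⟪ContinuousLinearMap.adjoint e (Wc G z w), ContinuousLinearMap.adjoint e (G z.1 v.1)⟫_ℝ := rfl
    have e2 : e (ContinuousLinearMap.adjoint e (G z.1 v.1)) = v.1 := by
      have := f1 v.1
      rw [hv, zero_smul, add_zero] at this
      exact this.symm
    have e3 : e (ContinuousLinearMap.adjoint e (G z.1 w.1)) = w.1 := by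
      have := f1 w.1
      rw [hw, zero_smul, add_zero] at this
      exact this.symm
    have e4 : ⟪ContinuousLinearMap.adjoint e (Wc G z v), ContinuousLinearMap.adjoint e (G z.1 w.1)⟫_ℝ = ⟪Wc G z v, w.1⟫_ℝ := by
      rw [real_inner_comm, SFI_adj, e3, real_inner_comm]
    have e5 : ⟪ContinuousLinearMap.adjoint e (Wc G z w), ContinuousLinearMap.adjoint e (G z.1 v.1)⟫_ℝ = ⟪Wc G z w, v.1⟫_ℝ := by
      rw [real_inner_comm, SFI_adj, e2, real_inner_comm]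
    have e6 : ⟪Wc G z v, w.1⟫_ℝ = ⟪v.2, w.1⟫_ℝ - ⟪ChT G z.1 v.1 z.2, w.1⟫_ℝ := by
      rw [← inner_sub_left]
      rfl
    have e7 : ⟪Wc G z w, v.1⟫_ℝ = ⟪w.2, v.1⟫_ℝ - ⟪ChT G z.1 w.1 z.2, v.1⟫_ℝ := by
      rw [← inner_sub_left]
      rfl
    have e8 : omg v w = ⟪v.2, w.1⟫_ℝ - ⟪w.2, v.1⟫_ℝ := rfl
    rw [e1, e4, e5, e6, e7, e8, hG.ws z.1 z.2 v.1 w.1]
    ring
  have hXH : LL G z e (XH G z) = 0 := by
    have e1 : LL G z e (XH G z) = (ContinuousLinearMap.adjoint e (G z.1 (vel G z)), ContinuousLinearMap.adjoint e (Wc G z (XH G z))) := rfl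
    rw [e1, f6, f4, hG.wx, map_zero]
    rfl
  have hLb : ∀ v, ‖LL G z e v‖ ≤ C ^ 2 * ‖v‖ := by
    intro v
    have e1 : LL G z e v = (ContinuousLinearMap.adjoint e (G z.1 v.1), ContinuousLinearMap.adjoint e (Wc G z v)) := rfl
    rw [e1, Prod.norm_mk]
    apply max_le
    · calc ‖ContinuousLinearMap.adjoint e (G z.1 v.1)‖ ≤ C * ‖G z.1 v.1‖ := headj _
        _ ≤ C * (C * ‖v.1‖) := mul_le_mul_of_nonneg_left (hGn _) hC0
        _ ≤ C * (C * ‖v‖) := mul_le_mul_of_nonneg_left (mul_le_mul_of_nonneg_left (norm_fst_le v) hC0) hC0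
        _ = C ^ 2 * ‖v‖ := by ring
    · calc ‖ContinuousLinearMap.adjoint e (Wc G z v)‖ ≤ C * ‖Wc G z v‖ := headj _
        _ ≤ C * (C * ‖v‖) := mul_le_mul_of_nonneg_left (b5 v) hC0
        _ = C ^ 2 * ‖v‖ := by ring
  have hlow : ∀ v : P (m + 1), ‖v‖ ≤ 2 * C ^ 3 * (‖LL G z e v‖ + |⟪z.2, v.1⟫_ℝ| + |fderiv ℝ (Ham G) z v|) := by
    intro v
    have hX : 0 ≤ ‖LL G z e v‖ := norm_nonneg _
    have hY : 0 ≤ |⟪z.2, v.1⟫_ℝ| := abs_nonneg _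
    have hZ : 0 ≤ |fderiv ℝ (Ham G) z v| := abs_nonneg _
    have h1 : ‖v.1‖ ≤ C * ‖LL G z e v‖ + C ^ 2 * |⟪z.2, v.1⟫_ℝ| := by
      have e1 := f1 v.1
      calc ‖v.1‖ = ‖e (ContinuousLinearMap.adjoint e (G z.1 v.1)) + ⟪z.2, v.1⟫_ℝ • vel G z‖ := by rw [← e1]
        _ ≤ ‖e (ContinuousLinearMap.adjoint e (G z.1 v.1))‖ + ‖⟪z.2, v.1⟫_ℝ • vel G z‖ := norm_add_le _ _
        _ ≤ C * ‖ContinuousLinearMap.adjoint e (G z.1 v.1)‖ + |⟪z.2, v.1⟫_ℝ| * ‖vel G z‖ := by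
          rw [norm_smul, Real.norm_eq_abs]
          exact add_le_add (hea _) le_rfl
        _ ≤ C * ‖LL G z e v‖ + |⟪z.2, v.1⟫_ℝ| * C ^ 2 :=
          add_le_add (mul_le_mul_of_nonneg_left (norm_fst_le (LL G z e v)) hC0) (mul_le_mul_of_nonneg_left hvel hY)
        _ = C * ‖LL G z e v‖ + C ^ 2 * |⟪z.2, v.1⟫_ℝ| := by ring
    have h2 : ‖Wc G z v‖ ≤ C ^ 2 * ‖LL G z e v‖ + C * |fderiv ℝ (Ham G) z v| := by
      have e1 := f2 (Wc G z v)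
      rw [← hG.dh] at e1
      calc ‖Wc G z v‖ = ‖G z.1 (e (ContinuousLinearMap.adjoint e (Wc G z v))) + fderiv ℝ (Ham G) z v • z.2‖ := by rw [← e1]
        _ ≤ ‖G z.1 (e (ContinuousLinearMap.adjoint e (Wc G z v)))‖ + ‖fderiv ℝ (Ham G) z v • z.2‖ := norm_add_le _ _
        _ ≤ C * (C * ‖ContinuousLinearMap.adjoint e (Wc G z v)‖) + |fderiv ℝ (Ham G) z v| * ‖z.2‖ := by
          rw [norm_smul, Real.norm_eq_abs]
          exact add_le_add ((hGn _).trans (mul_le_mul_of_nonneg_left (hea _) hC0)) le_rfl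
        _ ≤ C * (C * ‖LL G z e v‖) + |fderiv ℝ (Ham G) z v| * C :=
          add_le_add (mul_le_mul_of_nonneg_left (mul_le_mul_of_nonneg_left (norm_snd_le (LL G z e v)) hC0) hC0) (mul_le_mul_of_nonneg_left b1 hZ)
        _ = C ^ 2 * ‖LL G z e v‖ + C * |fderiv ℝ (Ham G) z v| := by ring
    have h3 : ‖ChT G z.1 v.1 z.2‖ ≤ C * ‖v.1‖ := by
      have e1 : Wc G z (v.1, 0) = -ChT G z.1 v.1 z.2 := by
        have : Wc G z (v.1, 0) = 0 - ChT G z.1 v.1 z.2 := rfl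
        rw [this, zero_sub]
      have h4 := b5 (v.1, 0)
      rw [e1, norm_neg, Prod.norm_mk, norm_zero, max_eq_left (norm_nonneg _)] at h4
      exact h4
    have h5 : ‖v.2‖ ≤ ‖Wc G z v‖ + ‖ChT G z.1 v.1 z.2‖ := by
      have e1 : v.2 = Wc G z v + ChT G z.1 v.1 z.2 := by
        have : Wc G z v = v.2 - ChT G z.1 v.1 z.2 := rfl
        rw [this, sub_add_cancel]
      calc ‖v.2‖ = ‖Wc G z v + ChT G z.1 v.1 z.2‖ := by rw [← e1]
        _ ≤ _ := norm_add_le _ _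
    have h6 : C * ‖v.1‖ ≤ C ^ 2 * ‖LL G z e v‖ + C ^ 3 * |⟪z.2, v.1⟫_ℝ| := by
      calc C * ‖v.1‖ ≤ C * (C * ‖LL G z e v‖ + C ^ 2 * |⟪z.2, v.1⟫_ℝ|) := mul_le_mul_of_nonneg_left h1 hC0
        _ = C ^ 2 * ‖LL G z e v‖ + C ^ 3 * |⟪z.2, v.1⟫_ℝ| := by ring
    have g1 : C ^ 2 * ‖LL G z e v‖ ≤ C ^ 3 * ‖LL G z e v‖ := mul_le_mul_of_nonneg_right hC23 hX
    have g2 : C * ‖LL G z e v‖ ≤ C ^ 3 * ‖LL G z e v‖ := mul_le_mul_of_nonneg_right (hC12.trans hC23) hX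
    have g3 : C ^ 2 * |⟪z.2, v.1⟫_ℝ| ≤ C ^ 3 * |⟪z.2, v.1⟫_ℝ| := mul_le_mul_of_nonneg_right hC23 hY
    have g4 : C * |fderiv ℝ (Ham G) z v| ≤ C ^ 3 * |fderiv ℝ (Ham G) z v| := mul_le_mul_of_nonneg_right (hC12.trans hC23) hZ
    have g5 : 0 ≤ C ^ 3 * ‖LL G z e v‖ := by positivity
    have g6 : 0 ≤ C ^ 3 * |⟪z.2, v.1⟫_ℝ| := by positivity
    have g7 : 0 ≤ C ^ 3 * |fderiv ℝ (Ham G) z v| := by positivity
    have e9 : 2 * C ^ 3 * (‖LL G z e v‖ + |⟪z.2, v.1⟫_ℝ| + |fderiv ℝ (Ham G) z v|) =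
        2 * (C ^ 3 * ‖LL G z e v‖) + 2 * (C ^ 3 * |⟪z.2, v.1⟫_ℝ|) + 2 * (C ^ 3 * |fderiv ℝ (Ham G) z v|) := by ring
    rw [e9, Prod.norm_def]
    apply max_le
    · linarith
    · linarith
  refine ⟨SFI_lin G z e (hG.wl z), hQQ, hom, hXH, hen.trans (by linarith), ?_, hlow, ?_⟩
  · intro v
    exact (hLb v).trans (mul_le_mul_of_nonneg_right (by linarith) (norm_nonneg _))
  · intro v
    have e2 : Qc G z v = ⟪Wc G z v, v.1⟫_ℝ := rfl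
    rw [e2]
    calc |⟪Wc G z v, v.1⟫_ℝ| ≤ ‖Wc G z v‖ * ‖v.1‖ := abs_real_inner_le_norm _ _
      _ ≤ (C * ‖v‖) * ‖v‖ := mul_le_mul (b5 v) (norm_fst_le v) (norm_nonneg _) (by positivity)
      _ = C * ‖v‖ ^ 2 := by ring
      _ ≤ 2 * C ^ 3 * ‖v‖ ^ 2 := mul_le_mul_of_nonneg_right (by linarith) (by positivity)

end

end Pool.Agent.VD
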