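import Pool.Agent.helper84.VD.SpecB3

set_option autoImplicit false

open scoped ContDiff Topology InnerProductSpace ENNReal
open MeasureTheory Filter Set

namespace Pool.Agent.VD

noncomputable section

theorem SGA_chain {F : Type} [NormedAddCommGroup F] [NormedSpace ℝ F] (L : F → F) (Φ : ℝ → F → F) (hL : ContDiff ℝ ∞ L)
    (hΦ : ContDiff ℝ ∞ fun q : ℝ × F => Φ q.1 q.2) (X : F → F) (hd : ∀ t p, HasDerivAt (fun s => Φ s p) (X (Φ t p)) t) (t : ℝ) (p : F) :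
    (fderiv ℝ (fun q : ℝ × F => L (Φ q.1 q.2)) (t, p) (1, 0) = fderiv ℝ L (Φ t p) (X (Φ t p))) ∧
    ∀ v, fderiv ℝ (fun q : ℝ × F => L (Φ q.1 q.2)) (t, p) (0, v) = fderiv ℝ L (Φ t p) (fderiv ℝ (Φ t) p v) := by
  have h1 : HasFDerivAt (fun q : ℝ × F => Φ q.1 q.2) (fderiv ℝ (fun q : ℝ × F => Φ q.1 q.2) (t, p)) (t, p) :=
    (hΦ.differentiable (by simp) (t, p)).hasFDerivAt
  have h2 : HasFDerivAt L (fderiv ℝ L (Φ t p)) (Φ t p) := (hL.differentiable (by simp) (Φ t p)).hasFDerivAt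
  have h3 : HasFDerivAt (fun q : ℝ × F => L (Φ q.1 q.2)) ((fderiv ℝ L (Φ t p)).comp (fderiv ℝ (fun q : ℝ × F => Φ q.1 q.2) (t, p))) (t, p) :=
    HasFDerivAt.comp (t, p) (f := fun q : ℝ × F => Φ q.1 q.2) (g := L) h2 h1
  have h4 : fderiv ℝ (fun q : ℝ × F => Φ q.1 q.2) (t, p) (1, 0) = X (Φ t p) := by
    have h5 : HasDerivAt (fun s : ℝ => (s, p)) ((1 : ℝ), (0 : F)) t := (hasDerivAt_id t).prodMk (hasDerivAt_const t p)
    have h6 : HasDerivAt (fun s : ℝ => Φ s p) (fderiv ℝ (fun q : ℝ × F => Φ q.1 q.2) (t, p) (1, 0)) t :=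
      HasFDerivAt.comp_hasDerivAt t (f := fun s : ℝ => (s, p)) (l := fun q : ℝ × F => Φ q.1 q.2) h1 h5
    exact h6.unique (hd t p)
  have h7 : ∀ v, fderiv ℝ (fun q : ℝ × F => Φ q.1 q.2) (t, p) (0, v) = fderiv ℝ (Φ t) p v := by
    intro v
    have h8 : HasFDerivAt (fun x : F => (t, x)) (ContinuousLinearMap.inr ℝ ℝ F) p := hasFDerivAt_prodMk_right t p
    have h9 : HasFDerivAt (Φ t) ((fderiv ℝ (fun q : ℝ × F => Φ q.1 q.2) (t, p)).comp (ContinuousLinearMap.inr ℝ ℝ F)) p :=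
      HasFDerivAt.comp p (f := fun x : F => (t, x)) (g := fun q : ℝ × F => Φ q.1 q.2) h1 h8
    rw [h9.fderiv]
    rfl
  rw [h3.fderiv]
  constructor
  · rw [ContinuousLinearMap.comp_apply, h4]
  · intro v
    rw [ContinuousLinearMap.comp_apply, h7]

theorem SGA_const (f g : ℝ → ℝ) (hf : ∀ t, HasDerivAt f (g t) t) (hg : ∀ t, HasDerivAt g 0 t) (h0 : g 0 = 0) (t : ℝ) : f t = f 0 := by
  have h1 : ∀ t, g t = 0 := by
    intro t
    rw [← h0]
    exact is_const_of_deriv_eq_zero (fun s => (hg s).differentiableAt) (fun s => (hg s).deriv) t 0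
  exact is_const_of_deriv_eq_zero (fun s => (hf s).differentiableAt) (fun s => by rw [(hf s).deriv, h1]) t 0

theorem SGA_proof (hGIN : GIN_stmt) (hGXH : GXH_stmt) (hGLF : GLF_stmt) (hGHL : GHL_stmt) (hGUN : GUN_stmt) (hGEQ : GEQ_stmt) (hGSY : GSY_stmt) (hGCH : GCH_stmt) (hGVL : GVL_stmt) (hGQD : GQD_stmt) : SGA_stmt := by
  intro d Γ _ _ K K' k B hK hKK' G Φ hG hΦ
  have hm := hG.met
  obtain ⟨hs, -, -, -, -, -, -⟩ := hGXH d G hm
  obtain ⟨l1, lmul, lsm, -, lal, -, lom, lfst⟩ := hGLF d Γ hK.smooth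
  obtain ⟨hH, hHX⟩ := hGHL d Γ G hm hK.smooth hG.isom
  obtain ⟨u1, -, u3, -⟩ := hGUN d G Φ hm hΦ
  have heq := hGEQ d Γ G Φ hm hK.smooth hG.isom hΦ
  obtain ⟨sy, -⟩ := hGSY d G Φ hm hΦ
  obtain ⟨c1, c2, -, -, -, c6, -, -⟩ := hGCH d G hm
  obtain ⟨-, -, -, v4, v5, v6⟩ := hGVL d G hm
  have hch : ∀ (γ : Γ) (t : ℝ) (p : P d), (fderiv ℝ (MM Φ γ) (t, p) (1, 0) = fderiv ℝ (lft γ : P d → P d) (Φ t p) (XH G (Φ t p))) ∧
      ∀ v : P d, fderiv ℝ (MM Φ γ) (t, p) (0, v) = fderiv ℝ (lft γ : P d → P d) (Φ t p) (fderiv ℝ (Φ t) p v) := fun γ t p =>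
    SGA_chain (lft γ : P d → P d) Φ (lsm γ) hΦ.smooth (XH G) hΦ.deriv t p
  have hC0 : ∀ x v, Chr G x 0 v = 0 := by
    intro x v
    have h := c2 x 0 0 v 1
    rw [one_smul, one_smul, add_zero] at h
    exact left_eq_add.mp h
  have hTa : ∀ x u u' ξ, ChT G x (u + u') ξ = ChT G x u ξ + ChT G x u' ξ := by
    intro x u u' ξ
    refine ext_inner_right ℝ fun w => ?_
    have h := c2 x u u' w 1
    rw [one_smul, one_smul] at h
    rw [inner_add_left, c6, c6, c6, h, inner_add_right]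
  have hTs : ∀ x u ξ (a : ℝ), ChT G x (a • u) ξ = a • ChT G x u ξ := by
    intro x u ξ a
    refine ext_inner_right ℝ fun w => ?_
    have h := c2 x 0 u w a
    rw [zero_add, hC0, zero_add] at h
    rw [real_inner_smul_left, c6, c6, h, real_inner_smul_right]
  have hdh : ∀ p v : P d, fderiv ℝ (Ham G) p v = ⟪Wc G p v, vel G p⟫_ℝ := fun p v => (v5 p v).symm
  have hfl : ∀ (t : ℝ) (p v : P d), fderiv ℝ (Ham G) p v = 0 → ⟪(Φ t p).2, (fderiv ℝ (Φ t) p v).1⟫_ℝ = ⟪p.2, v.1⟫_ℝ := by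
    intro t p v hv
    have hJP : ∀ s, JP G (fun s => Φ s p) (fun s => fderiv ℝ (Φ s) p v) s := by
      intro s
      refine ⟨hΦ.deriv s p, ?_⟩
      have h1 := u1.var p s
      have h2 := h1.clm_apply (hasDerivAt_const s v)
      rw [map_zero, add_zero] at h2
      exact h2
    have hz : Φ 0 = fun p => p := funext hΦ.zero
    have hz' : fderiv ℝ (Φ 0) p v = v := by
      rw [hz, fderiv_fun_id]
      rfl
    have h2 := SGA_const (fun s => ⟪(Φ s p).2, (fderiv ℝ (Φ s) p v).1⟫_ℝ) (fun s => ⟪Wc G (Φ s p) (fderiv ℝ (Φ s) p v), vel G (Φ s p)⟫_ℝ)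
      (fun s => (hGQD d G hm _ _ _ s (hJP s) (hJP s)).2.2.2.1) (fun s => (hGQD d G hm _ _ _ s (hJP s) (hJP s)).2.2.2.2) (by
        show ⟪Wc G (Φ 0 p) (fderiv ℝ (Φ 0) p v), vel G (Φ 0 p)⟫_ℝ = 0
        rw [hz', hΦ.zero, ← hdh, hv]) t
    have h3 : ⟪(Φ t p).2, (fderiv ℝ (Φ t) p v).1⟫_ℝ = ⟪(Φ 0 p).2, (fderiv ℝ (Φ 0) p v).1⟫_ℝ := h2
    rw [h3, hz', hΦ.zero]
  exact
    { met := hm
      fl := hΦ
      hs := hs
      dif := fun γ => (lsm γ).comp hΦ.smooth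
      l1 := l1
      lm := lmul
      lf := heq
      hm := fun γ t p => ⟨((hH γ (Φ t p)).2.1).trans (u3 t p).2, ((hH γ (Φ t p)).1).trans (u3 t p).1⟩
      cov := fun p hp => by
        obtain ⟨γ, hγ⟩ := hK.cover p.1
        exact ⟨γ, hKK' hγ, ((hH γ p).2.1).trans hp⟩
      wl := fun p => by
        constructor
        · intro v w
          show (v + w).2 - ChT G p.1 (v + w).1 p.2 = (v.2 - ChT G p.1 v.1 p.2) + (w.2 - ChT G p.1 w.1 p.2)
          rw [Prod.fst_add, Prod.snd_add, hTa]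
          abel
        · intro a v
          show (a • v).2 - ChT G p.1 (a • v).1 p.2 = a • (v.2 - ChT G p.1 v.1 p.2)
          rw [Prod.smul_fst, Prod.smul_snd, hTs, smul_sub]
      ws := fun x ξ u u' => by rw [c6, c6, c1]
      dh := hdh
      ox := fun p v => by
        rw [v6 p v (XH G p), (v4 p).1, inner_zero_left, sub_zero, hdh]
        rfl
      wx := fun p => (v4 p).1
      mx := fun γ t p => by
        rw [(hch γ t p).1, hHX]
        rfl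
      om := fun γ t p v w => by
        rw [(hch γ t p).2, (hch γ t p).2, lom, sy]
      al := fun γ t p v hv => by
        rw [(hch γ t p).2, lfst]
        have h1 := lal γ (Φ t p) (fderiv ℝ (Φ t) p v).1
        rw [← hfl t p v hv]
        exact h1 }

end

end Pool.Agent.VD
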