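import Pool.Agent.helper99.VD.SpecV

set_option autoImplicit false

open scoped ContDiff Topology InnerProductSpace ENNReal
open MeasureTheory Filter Set

namespace Pool.Agent.VD

noncomputable section

theorem VBY_mY {d : ℕ} (Γ : Type) (κ : Γ) (E : Set (P d)) : mY Γ d {y : YS Γ d | y.1 = κ ∧ y.2 ∈ E} = volume E := by
  let _ : MeasurableSpace Γ := ⊤
  have h : {y : YS Γ d | y.1 = κ ∧ y.2 ∈ E} = ({κ} : Set Γ) ×ˢ E := rfl
  have h1 : mY Γ d {y : YS Γ d | y.1 = κ ∧ y.2 ∈ E} = (Measure.prod (Measure.count : Measure Γ) (volume : Measure (P d))) (({κ} : Set Γ) ×ˢ E) := by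
    rw [h]
    rfl
  have h2 : (Measure.count : Measure Γ) {κ} = 1 := Measure.count_singleton' (MeasurableSpace.measurableSet_top)
  rw [h1, Measure.prod_prod, h2, one_mul]

theorem VBY_c {d : ℕ} (D : P d → P d → ℝ) (f : P d → P d) (hD : Continuous (Function.uncurry D)) (hf : Continuous f) (q : P d) :
    Continuous fun p : P d => D q (f p) :=
  hD.comp (Continuous.prodMk continuous_const hf)

theorem VBY_mA {d : ℕ} (Γ : Type) [Group Γ] [MulAction Γ (V d)] (hc : Countable Γ) (f : Γ → P d → ℝ) (hf : ∀ γ, Continuous (f γ)) (s : ℝ) :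
    MeasurableSet {y : YS Γ d | f y.1 y.2 ≤ s} := by
  have h1 : {y : YS Γ d | f y.1 y.2 ≤ s} = ⋃ γ : Γ, {y : YS Γ d | y.1 = γ ∧ y.2 ∈ {p | f γ p ≤ s}} := by
    ext y
    rw [mem_iUnion]
    constructor
    · intro h
      exact ⟨y.1, rfl, h⟩
    · rintro ⟨γ, h, h'⟩
      show f y.1 y.2 ≤ s
      rw [h]
      exact h'
  rw [h1]
  refine MeasurableSet.iUnion fun γ => ?_
  let _ : MeasurableSpace Γ := ⊤
  have h2 : MeasurableSet (({γ} : Set Γ) ×ˢ {p | f γ p ≤ s}) :=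
    (MeasurableSpace.measurableSet_top).prod (isClosed_le (hf γ) continuous_const).measurableSet
  exact h2

theorem VBY_vol {d : ℕ} (q : P d) (r : ℝ) (hr : 0 ≤ r) : volume (Metric.closedBall q r) = ENNReal.ofReal (r ^ (2 * d)) * volume (Metric.ball (0 : P d) 1) := by
  have hi : (volume : Measure (P d)).IsAddHaarMeasure := by
    rw [Measure.volume_eq_prod]
    infer_instance
  have h := Measure.addHaar_closedBall (volume : Measure (P d)) q hr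
  have hd : Module.finrank ℝ (P d) = 2 * d := by
    rw [Module.finrank_prod, finrank_euclideanSpace_fin, two_mul]
  rw [hd] at h
  exact h

theorem VBY_R (R : ℝ) (hR : 65536 ≤ R) : 2 * R ^ (-(1 / 4) : ℝ) ≤ 1 / 8 := by
  have h1 : R ^ (-(1 / 4) : ℝ) ≤ (65536 : ℝ) ^ (-(1 / 4) : ℝ) := Real.rpow_le_rpow_of_nonpos (by norm_num) hR (by norm_num)
  have h2 : (65536 : ℝ) ^ (-(1 / 4) : ℝ) = 1 / 16 := by
    have h3 : (65536 : ℝ) = (16 : ℝ) ^ (4 : ℝ) := by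
      have : (16 : ℝ) ^ (4 : ℝ) = (16 : ℝ) ^ (4 : ℕ) := by
        rw [← Real.rpow_natCast]
        norm_num
      rw [this]
      norm_num
    rw [h3, ← Real.rpow_mul (by norm_num)]
    have h4 : (4 : ℝ) * -(1 / 4) = -1 := by norm_num
    rw [h4, Real.rpow_neg_one]
    norm_num
  rw [h2] at h1
  linarith

theorem VBY_proof (hDPP : DPP_stmt) (hUVL : UVL_stmt) (hGLF : GLF_stmt) (hGHL : GHL_stmt) (hGMP : GMP_stmt) (hDFD : DFD_stmt) : VBY_stmt := by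
  intro d Γ _ _ K k B χ r0 hK hχ
  obtain ⟨hcount, -⟩ := hDFD d Γ K hK
  obtain ⟨m, hm⟩ : ∃ m : ℕ, ∀ x ∈ K, ‖x‖ ≤ m := by
    obtain ⟨b, hb⟩ := hK.compact.isBounded.exists_norm_le
    obtain ⟨m, hm⟩ := exists_nat_ge b
    exact ⟨m, fun x hx => (hb x hx).trans hm⟩
  obtain ⟨C1, hC1, hU⟩ := hUVL d Γ K k B hK m
  obtain ⟨-, -, -, dsym, dtri, dinv, dcont, -, dlow, -, -⟩ := hDPP d Γ K χ hK hχ
  obtain ⟨C2, hC2, hlow⟩ := dlow C1
  obtain ⟨l1, lmul, lsm, -, -, -, -, -⟩ := hGLF d Γ hK.smooth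
  have hfin := hK.proper (Metric.closedBall (0 : V d) (max r0 (m + 1))) (isCompact_closedBall _ _)
  set S : Finset Γ := hfin.toFinset with hS
  set v : ℝ := (volume (Metric.ball (0 : P d) 1)).toReal with hv
  have hvn : 0 ≤ v := ENNReal.toReal_nonneg
  refine ⟨max 4 (max (2 * C2) (S.card * ((2 * C2) ^ (2 * d) * v))), 65536, le_trans (by norm_num) (le_max_left _ _), by norm_num, ?_⟩
  intro G R s y hG hR hs hCs
  have hG0 := hG.met
  obtain ⟨u1, u2, -⟩ := hU G hG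
  obtain ⟨hH, -⟩ := hGHL d Γ G hG0 hK.smooth hG.isom
  have hcγ : ∀ γ : Γ, Continuous (fun p : P d => dP Γ χ (lft y.1 y.2) (lft γ p)) := fun γ => VBY_c (dP Γ χ) (lft γ) dcont (lsm γ).continuous _
  have hA : MeasurableSet {y' : YS Γ d | dP Γ χ (lft y.1 y.2) (lft y'.1 y'.2) ≤ s} :=
    VBY_mA Γ hcount (fun γ p => dP Γ χ (lft y.1 y.2) (lft γ p)) hcγ s
  have hmW : mW Γ G r0 R {y' : YS Γ d | dP Γ χ (lft y.1 y.2) (lft y'.1 y'.2) ≤ s} = mY Γ d ({y' : YS Γ d | dP Γ χ (lft y.1 y.2) (lft y'.1 y'.2) ≤ s} ∩ GW Γ G r0 2 R) :=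
    Measure.restrict_apply hA
  rw [hmW]
  rcases Set.eq_empty_or_nonempty ({y' : YS Γ d | dP Γ χ (lft y.1 y.2) (lft y'.1 y'.2) ≤ s} ∩ GW Γ G r0 2 R) with hemp | ⟨y1, hy1, hy1'⟩
  · rw [hemp, measure_empty]
    exact bot_le
  have h4s : 4 * s ≤ 1 := (mul_le_mul_of_nonneg_right (le_max_left _ _) hs.le).trans hCs
  have h2s : 2 * C2 * s ≤ 1 := (mul_le_mul_of_nonneg_right ((le_max_left _ _).trans (le_max_right _ _)) hs.le).trans hCs
  have hEp : ∀ y' ∈ GW Γ G r0 2 R, |Ep G y'.2| ≤ 1 / 8 := fun y' hy' => hy'.2.trans (VBY_R R hR)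
  obtain ⟨γ0, hγ0⟩ := hK.cover (lft y1.1 y1.2).1
  set q0 : P d := lft γ0 (lft y1.1 y1.2) with hq0
  have hq01 : q0.1 ∈ K := hγ0
  have hEq0 : Ep G q0 = Ep G y1.2 := by
    show Ham G q0 - 1 / 2 = Ham G y1.2 - 1 / 2
    rw [hq0, (hH γ0 _).1, (hH y1.1 _).1]
  have hq02 : ‖q0.2‖ ≤ C1 := by
    refine (u2 q0 (hm _ hq01) ?_).2.2
    rw [hEq0]
    exact hEp y1 hy1'
  have hball : ∀ y' : YS Γ d, dP Γ χ (lft y.1 y.2) (lft y'.1 y'.2) ≤ s → ‖q0 - lft (γ0 * y'.1) y'.2‖ ≤ 2 * C2 * s := by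
    intro y' hy'
    have e1 : lft (γ0 * y'.1) y'.2 = lft γ0 (lft y'.1 y'.2) := lmul _ _ _
    have h1 : dP Γ χ q0 (lft (γ0 * y'.1) y'.2) ≤ 2 * s := by
      rw [e1, hq0, dinv]
      calc dP Γ χ (lft y1.1 y1.2) (lft y'.1 y'.2) ≤ dP Γ χ (lft y1.1 y1.2) (lft y.1 y.2) + dP Γ χ (lft y.1 y.2) (lft y'.1 y'.2) := dtri _ _ _
        _ ≤ s + s := add_le_add (by rw [dsym]; exact hy1) hy'
        _ = 2 * s := by ring
    have h2 := hlow q0 (lft (γ0 * y'.1) y'.2) hq01 hq02 (by linarith)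
    calc ‖q0 - lft (γ0 * y'.1) y'.2‖ ≤ C2 * dP Γ χ q0 (lft (γ0 * y'.1) y'.2) := h2
      _ ≤ C2 * (2 * s) := mul_le_mul_of_nonneg_left h1 (by linarith)
      _ = 2 * C2 * s := by ring
  have hsub : {y' : YS Γ d | dP Γ χ (lft y.1 y.2) (lft y'.1 y'.2) ≤ s} ∩ GW Γ G r0 2 R ⊆
      ⋃ δ ∈ S, {y' : YS Γ d | y'.1 = γ0⁻¹ * δ ∧ y'.2 ∈ (lft δ : P d → P d) ⁻¹' Metric.closedBall q0 (2 * C2 * s)} := by
    rintro y' ⟨hy', hy''⟩
    have h1 := hball y' hy'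
    rw [mem_iUnion₂]
    refine ⟨γ0 * y'.1, ?_, ?_, ?_⟩
    · rw [hS, Set.Finite.mem_toFinset]
      refine ⟨y'.2.1, ?_, ?_⟩
      · rw [mem_closedBall_zero_iff]
        exact hy''.1.trans (le_max_left _ _)
      · rw [mem_closedBall_zero_iff]
        refine le_trans ?_ (le_max_right _ _)
        have h2 : ‖q0.1 - (γ0 * y'.1) • y'.2.1‖ ≤ 1 := by
          have h3 : ‖(q0 - lft (γ0 * y'.1) y'.2).1‖ ≤ ‖q0 - lft (γ0 * y'.1) y'.2‖ := norm_fst_le _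
          exact h3.trans (h1.trans h2s)
        have h3 := norm_sub_norm_le ((γ0 * y'.1) • y'.2.1) q0.1
        rw [norm_sub_rev] at h3
        have h4 := hm _ hq01
        linarith
    · rw [inv_mul_cancel_left]
    · rw [mem_preimage, Metric.mem_closedBall, dist_comm, dist_eq_norm]
      exact h1
  have hvol : volume (Metric.ball (0 : P d) 1) = ENNReal.ofReal v := by
    rw [hv, ENNReal.ofReal_toReal]
    exact measure_ball_lt_top.ne
  have h2C : 0 ≤ 2 * C2 * s := by positivity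
  calc mY Γ d ({y' : YS Γ d | dP Γ χ (lft y.1 y.2) (lft y'.1 y'.2) ≤ s} ∩ GW Γ G r0 2 R)
      ≤ mY Γ d (⋃ δ ∈ S, {y' : YS Γ d | y'.1 = γ0⁻¹ * δ ∧ y'.2 ∈ (lft δ : P d → P d) ⁻¹' Metric.closedBall q0 (2 * C2 * s)}) := measure_mono hsub
    _ ≤ ∑ δ ∈ S, mY Γ d {y' : YS Γ d | y'.1 = γ0⁻¹ * δ ∧ y'.2 ∈ (lft δ : P d → P d) ⁻¹' Metric.closedBall q0 (2 * C2 * s)} := measure_biUnion_finset_le _ _
    _ = ∑ δ ∈ S, ENNReal.ofReal ((2 * C2 * s) ^ (2 * d) * v) := by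
      refine Finset.sum_congr rfl fun δ _ => ?_
      rw [VBY_mY, (hGMP d Γ hK.smooth δ).measure_preimage measurableSet_closedBall.nullMeasurableSet, VBY_vol q0 _ h2C, hvol, ENNReal.ofReal_mul (by positivity)]
    _ = ENNReal.ofReal (S.card * ((2 * C2 * s) ^ (2 * d) * v)) := by
      rw [Finset.sum_const, nsmul_eq_mul, ENNReal.ofReal_mul (Nat.cast_nonneg S.card), ENNReal.ofReal_natCast]
    _ ≤ ENNReal.ofReal (max 4 (max (2 * C2) (S.card * ((2 * C2) ^ (2 * d) * v))) * s ^ (2 * d)) := by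
      apply ENNReal.ofReal_le_ofReal
      have e1 : (S.card : ℝ) * ((2 * C2 * s) ^ (2 * d) * v) = (S.card * ((2 * C2) ^ (2 * d) * v)) * s ^ (2 * d) := by
        rw [mul_pow (2 * C2) s]
        ring
      rw [e1]
      exact mul_le_mul_of_nonneg_right ((le_max_right _ _).trans (le_max_right _ _)) (by positivity)

end

end Pool.Agent.VD
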